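import Pool.Agent.Y160.T8.Stm
import Pool.Agent.Y228.FT.InA

set_option autoImplicit false
set_option linter.all false

/-! Independence in a Kummer extension. -/

open Polynomial IsDedekindDomain WithZero

namespace Pool.Agent.Y457.T8

open Pool.Agent.Y160.T8

theorem st_ind : St_ind := by
  intro p r k R _ _ _ _ ζ t a hp hζ ht hta hI hdom c e w hc hw
  have hkR : Function.Injective (algebraMap k R) := (algebraMap k R).injective
  have hζR : IsPrimitiveRoot (algebraMap k R ζ) p := hζ.map_of_injective hkR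
  have hw' : w ^ p = AdjoinRoot.of (X ^ p - C t : R[X]) (algebraMap k R c * ∏ j, a j ^ e j) := by
    rw [← hw, map_mul, map_prod]
    congr 1
    refine Finset.prod_congr rfl fun j _ => ?_
    rw [map_pow]
    rfl
  obtain ⟨y, i, hi, h⟩ := Pool.Agent.Y228.FT.struct (r := 1) hp.pos one_pos (by rw [one_mul]) t _
    rfl hζR w _ hw'
  rcases Nat.eq_zero_or_pos i with h0 | h0
  · rw [h0, pow_zero, mul_one] at h
    exact hI c e y hc h
  exfalso
  have hcu : IsUnit (algebraMap k R c) := (IsUnit.mk0 _ hc).map (algebraMap k R)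
  have h6 : t ∣ ∏ j, a j ^ e j := by
    have h7 : t ∣ algebraMap k R c * ∏ j, a j ^ e j := by
      rw [h]
      exact (dvd_pow_self t h0.ne').mul_left _
    exact (hcu.dvd_mul_left).1 h7
  obtain ⟨j, _, hj⟩ := (ht.dvd_finset_prod_iff _).1 h6
  exact hta j (ht.dvd_of_dvd_pow hj)

end Pool.Agent.Y457.T8
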